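import Mathlib
import Pool.Agent.Helper8.KS.Defs
import Pool.Agent.Helper18.Interval.Pair

set_option autoImplicit false

/-!
# Averages over linear extensions, and counting by mean rank
-/

namespace Pool.Agent.Helper18.KSC

open Finset Pool.Agent.Helper1.Balance Pool.Agent.Helper8.KS

section Ave

variable {n : ℕ} {r : Fin n → Fin n → Prop}

open Classical in
/-- The probability of `p` under a uniform linear extension. -/
noncomputable def Pr (r : Fin n → Fin n → Prop) (p : Equiv.Perm (Fin n) → Prop) : ℝ :=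
  Ex r (fun w => if p w then (1 : ℝ) else 0)

theorem LEs_pos (hr : IsPoset r) : 0 < (LEs r).card :=
  Pool.Agent.Helper18.Interval.LX_pos hr

theorem Ex_add (f g : Equiv.Perm (Fin n) → ℝ) :
    Ex r (fun w => f w + g w) = Ex r f + Ex r g := by
  simp only [Ex, sum_add_distrib, add_div]

theorem Ex_sub (f g : Equiv.Perm (Fin n) → ℝ) :
    Ex r (fun w => f w - g w) = Ex r f - Ex r g := by
  simp only [Ex, sum_sub_distrib, sub_div]

theorem Ex_mul_left (c : ℝ) (f : Equiv.Perm (Fin n) → ℝ) :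
    Ex r (fun w => c * f w) = c * Ex r f := by
  simp only [Ex, ← mul_sum, mul_div_assoc]

theorem Ex_mono {f g : Equiv.Perm (Fin n) → ℝ} (h : ∀ w, f w ≤ g w) : Ex r f ≤ Ex r g := by
  unfold Ex
  exact div_le_div_of_nonneg_right (sum_le_sum fun w _ => h w) (Nat.cast_nonneg _)

theorem Ex_nonneg {f : Equiv.Perm (Fin n) → ℝ} (h : ∀ w, 0 ≤ f w) : 0 ≤ Ex r f :=
  div_nonneg (sum_nonneg fun w _ => h w) (Nat.cast_nonneg _)

theorem Ex_const (hr : IsPoset r) (c : ℝ) : Ex r (fun _ => c) = c := by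
  have : ((LEs r).card : ℝ) ≠ 0 := by
    exact_mod_cast (LEs_pos hr).ne'
  simp only [Ex, sum_const, nsmul_eq_mul]
  field_simp

theorem Ex_sum {ι : Type*} (S : Finset ι) (f : ι → Equiv.Perm (Fin n) → ℝ) :
    Ex r (fun w => ∑ x ∈ S, f x w) = ∑ x ∈ S, Ex r (f x) := by
  simp only [Ex]
  rw [sum_comm, sum_div]

theorem Pr_nonneg (p : Equiv.Perm (Fin n) → Prop) : 0 ≤ Pr r p :=
  Ex_nonneg fun w => by split_ifs <;> norm_num

theorem Pr_le_one (hr : IsPoset r) (p : Equiv.Perm (Fin n) → Prop) : Pr r p ≤ 1 := by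
  rw [← Ex_const hr 1]
  exact Ex_mono fun w => by split_ifs <;> norm_num

theorem Pr_mono {p q : Equiv.Perm (Fin n) → Prop} (h : ∀ w, p w → q w) : Pr r p ≤ Pr r q := by
  refine Ex_mono fun w => ?_
  by_cases h1 : p w
  · simp [h1, h w h1]
  · simp only [h1, if_false]
    split_ifs <;> norm_num

theorem Pr_compl (hr : IsPoset r) (p : Equiv.Perm (Fin n) → Prop) :
    Pr r (fun w => ¬ p w) = 1 - Pr r p := by
  classical
  have : Pr r (fun w => ¬ p w) + Pr r p = 1 := by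
    rw [Pr, Pr, ← Ex_add]
    refine (congrArg (Ex r) ?_).trans (Ex_const hr 1)
    funext w
    by_cases h : p w <;> simp [h]
  linarith

theorem sum_Pr {ι : Type*} (S : Finset ι) (p : ι → Equiv.Perm (Fin n) → Prop)
    (c : Equiv.Perm (Fin n) → ι → Prop) (hc : ∀ w x, c w x ↔ p x w)
    [∀ w, DecidablePred (c w)] :
    ∑ x ∈ S, Pr r (p x) = Ex r (fun w => ((S.filter (c w)).card : ℝ)) := by
  unfold Pr
  rw [← Ex_sum]
  congr 1
  funext w
  rw [card_filter]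
  push_cast
  refine sum_congr rfl fun x _ => ?_
  by_cases h : p x w
  · simp [h, (hc w x).2 h]
  · simp [h, mt (hc w x).1 h]

/-- Markov / Chebyshev. -/
theorem cheb (f : Equiv.Perm (Fin n) → ℝ) (a v : ℝ) (ha : 0 < a)
    (hv : Ex r (fun w => f w ^ 2) ≤ v) :
    Pr r (fun w => a ≤ |f w|) ≤ v / a ^ 2 := by
  rw [le_div_iff₀ (by positivity), mul_comm, Pr, ← Ex_mul_left]
  refine le_trans (Ex_mono fun w => ?_) hv
  split_ifs with h
  · have : a ^ 2 ≤ |f w| ^ 2 := by gcongr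
    rw [sq_abs] at this
    linarith
  · have := sq_nonneg (f w)
    linarith

theorem pos_injective (w : Equiv.Perm (Fin n)) : Function.Injective (pos w) := by
  intro x y h
  unfold pos at h
  have h1 : ((w x : ℕ) : ℝ) = ((w y : ℕ) : ℝ) := by linarith
  exact w.injective (Fin.ext (by exact_mod_cast h1))

/-- few elements have their position in a given interval -/
theorem card_pos_le (w : Equiv.Perm (Fin n)) (u v : ℝ) (huv : u ≤ v) (T : Finset (Fin n))
    (hT : ∀ x ∈ T, u ≤ pos w x ∧ pos w x ≤ v) : (T.card : ℝ) ≤ v - u + 1 := by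
  classical
  have h1 : T.image (fun x => (((w x : ℕ) : ℤ) + 1)) ⊆ Finset.Icc ⌈u⌉ ⌊v⌋ := by
    intro k hk
    obtain ⟨x, hx, rfl⟩ := Finset.mem_image.1 hk
    have := hT x hx
    unfold pos at this
    rw [Finset.mem_Icc]
    refine ⟨Int.ceil_le.2 ?_, Int.le_floor.2 ?_⟩
    · push_cast; exact this.1
    · push_cast; exact this.2
  have h2 := Finset.card_le_card h1
  rw [Finset.card_image_of_injective _ (by
    intro x y h
    have h' : ((w x : ℕ) : ℤ) + 1 = ((w y : ℕ) : ℤ) + 1 := h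
    exact w.injective (Fin.ext (by omega))), Int.card_Icc] at h2
  have h3 : ((⌊v⌋ + 1 - ⌈u⌉).toNat : ℝ) ≤ v - u + 1 := by
    rcases le_total (⌊v⌋ + 1 - ⌈u⌉) 0 with h | h
    · rw [Int.toNat_of_nonpos h]; simp; linarith
    · have : (((⌊v⌋ + 1 - ⌈u⌉).toNat : ℤ) : ℝ) = ((⌊v⌋ + 1 - ⌈u⌉ : ℤ) : ℝ) := by
        rw [Int.toNat_of_nonneg h]
      rw [Int.cast_natCast] at this
      rw [this]
      push_cast
      have h4 := Int.floor_le v
      have h5 := Int.le_ceil u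
      linarith
  exact le_trans (by exact_mod_cast h2) h3

/-- many elements have their position in a given interval -/
theorem le_card_pos (w : Equiv.Perm (Fin n)) (u v : ℝ) (hu : 1 ≤ u) (hv : v ≤ n)
    (T : Finset (Fin n)) (hT : ∀ x, u ≤ pos w x → pos w x ≤ v → x ∈ T) :
    v - u - 1 ≤ (T.card : ℝ) := by
  classical
  have h2 : Finset.Icc ⌈u⌉ ⌊v⌋ ⊆ T.image (fun x => (((w x : ℕ) : ℤ) + 1)) := by
    intro k hk
    rw [Finset.mem_Icc] at hk
    have h3 : u ≤ (k : ℝ) := Int.ceil_le.1 hk.1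
    have h4 : (k : ℝ) ≤ v := Int.le_floor.1 hk.2
    have h5 : (1 : ℤ) ≤ k := by
      have : (1 : ℝ) ≤ (k : ℝ) := by linarith
      exact_mod_cast this
    have h6 : k ≤ (n : ℤ) := by
      have : (k : ℝ) ≤ (n : ℝ) := by linarith
      exact_mod_cast this
    have h7 : (k - 1).toNat < n := by omega
    rw [Finset.mem_image]
    refine ⟨w.symm ⟨(k - 1).toNat, h7⟩, ?_, ?_⟩
    · have h8 : pos w (w.symm ⟨(k - 1).toNat, h7⟩) = k := by
        unfold pos
        rw [w.apply_symm_apply]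
        have : (((k - 1).toNat : ℤ) : ℝ) = ((k - 1 : ℤ) : ℝ) := by
          rw [Int.toNat_of_nonneg (by omega)]
        rw [Int.cast_natCast] at this
        simp only
        rw [this]
        push_cast
        ring
      exact hT _ (by rw [h8]; exact h3) (by rw [h8]; exact h4)
    · rw [w.apply_symm_apply]
      simp only
      omega
  have h3 := Finset.card_le_card h2
  have h3' : (Finset.Icc ⌈u⌉ ⌊v⌋).card ≤ T.card := le_trans h3 Finset.card_image_le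
  rw [Int.card_Icc] at h3'
  have h4 : ((⌊v⌋ + 1 - ⌈u⌉ : ℤ) : ℝ) ≤ (T.card : ℝ) := by
    have : (⌊v⌋ + 1 - ⌈u⌉ : ℤ) ≤ ((T.card : ℕ) : ℤ) :=
      le_trans (Int.self_le_toNat _) (by exact_mod_cast h3')
    exact_mod_cast this
  refine le_trans ?_ h4
  push_cast
  have h5 := Int.lt_floor_add_one v
  have h6 := Int.ceil_lt_add_one u
  linarith

end Ave

/-- Summation over shells. -/
theorem shell_sum {ι : Type*} (S : Finset ι) (d : ι → ℝ) (m : ℕ)
    (hd : ∀ x ∈ S, (m : ℝ) ≤ d x) (φ : ℕ → ℝ) (hφ0 : ∀ j, 0 ≤ φ j) (f : ι → ℝ)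
    (hf : ∀ x ∈ S, f x ≤ φ ⌊d x⌋₊) (N : ℝ) (hN0 : 0 ≤ N)
    (hN : ∀ (j : ℕ) (T : Finset ι), m ≤ j → T ⊆ S → (∀ x ∈ T, (j : ℝ) ≤ d x ∧ d x < j + 1) →
      (T.card : ℝ) ≤ N)
    (B : ℝ) (hB : ∀ M, ∑ j ∈ Finset.Ico m M, φ j ≤ B) :
    ∑ x ∈ S, f x ≤ N * B := by
  classical
  obtain ⟨M, hM⟩ : ∃ M : ℕ, ∀ x ∈ S, ⌊d x⌋₊ < M := by
    refine ⟨S.sup (fun x => ⌊d x⌋₊) + 1, fun x hx => ?_⟩
    exact Nat.lt_succ_of_le (Finset.le_sup (f := fun x => ⌊d x⌋₊) hx)
  have h1 : ∑ x ∈ S, f x ≤ ∑ x ∈ S, φ ⌊d x⌋₊ := sum_le_sum hf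
  have h2 : ∑ x ∈ S, φ ⌊d x⌋₊ =
      ∑ j ∈ Finset.Ico m M, ∑ x ∈ S with ⌊d x⌋₊ = j, φ ⌊d x⌋₊ := by
    rw [Finset.sum_fiberwise_of_maps_to]
    intro x hx
    rw [Finset.mem_Ico]
    exact ⟨Nat.le_floor (hd x hx), hM x hx⟩
  have h3 : ∀ j ∈ Finset.Ico m M, ∑ x ∈ S with ⌊d x⌋₊ = j, φ ⌊d x⌋₊ ≤ N * φ j := by
    intro j hj
    rw [Finset.mem_Ico] at hj
    have h4 : ∑ x ∈ S with ⌊d x⌋₊ = j, φ ⌊d x⌋₊ =
        ((S.filter (fun x => ⌊d x⌋₊ = j)).card : ℝ) * φ j := by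
      rw [← nsmul_eq_mul, ← Finset.sum_const]
      refine Finset.sum_congr rfl fun x hx => ?_
      rw [(Finset.mem_filter.1 hx).2]
    rw [h4]
    refine mul_le_mul_of_nonneg_right ?_ (hφ0 j)
    refine hN j _ hj.1 (Finset.filter_subset _ _) fun x hx => ?_
    rw [Finset.mem_filter] at hx
    have h0 : (0 : ℝ) ≤ d x := le_trans (Nat.cast_nonneg m) (hd x hx.1)
    have h5 := (Nat.floor_eq_iff h0).1 hx.2
    exact h5
  calc ∑ x ∈ S, f x ≤ ∑ x ∈ S, φ ⌊d x⌋₊ := h1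
    _ = _ := h2
    _ ≤ ∑ j ∈ Finset.Ico m M, N * φ j := sum_le_sum h3
    _ = N * ∑ j ∈ Finset.Ico m M, φ j := by rw [mul_sum]
    _ ≤ N * B := mul_le_mul_of_nonneg_left (hB M) hN0

theorem sum_inv_sq_le (M : ℕ) : ∑ j ∈ Finset.Ico 4 M, (1 : ℝ) / (j : ℝ) ^ 2 ≤ 1 / 3 := by
  have key : ∀ M : ℕ, 4 ≤ M →
      ∑ j ∈ Finset.Ico 4 M, (1 : ℝ) / (j : ℝ) ^ 2 ≤ 1 / 3 - 1 / ((M : ℝ) - 1) := by
    intro M hM
    induction M, hM using Nat.le_induction with
    | base => norm_num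
    | succ k hk ih =>
      rw [Finset.sum_Ico_succ_top hk]
      have h1 : (4 : ℝ) ≤ k := by exact_mod_cast hk
      have h2 : (1 : ℝ) / (k : ℝ) ^ 2 ≤ 1 / ((k : ℝ) - 1) - 1 / (k : ℝ) := by
        rw [div_sub_div _ _ (by linarith) (by linarith),
          div_le_div_iff₀ (by positivity) (by nlinarith)]
        nlinarith
      push_cast
      have h3 : ((k : ℝ) + 1 - 1) = k := by ring
      rw [h3]
      linarith
  rcases Nat.lt_or_ge M 4 with h | h
  · rw [Finset.Ico_eq_empty (by omega)]; norm_num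
  · have h1 := key M h
    have h2 : (4 : ℝ) ≤ M := by exact_mod_cast h
    have h3 : (0 : ℝ) ≤ 1 / ((M : ℝ) - 1) := by
      apply div_nonneg (by norm_num); linarith
    linarith

end Pool.Agent.Helper18.KSC
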