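import Mathlib
import Pool.Agent.Helper18.KS.Ave

set_option autoImplicit false

/-!
# Counting by mean rank (section 9)
-/

namespace Pool.Agent.Helper18.KSC

open Finset Pool.Agent.Helper1.Balance Pool.Agent.Helper8.KS

variable {n : ℕ} {r : Fin n → Fin n → Prop}

/-- (9.2), first form. -/
theorem card_mean_le (hr : IsPoset r) (D : ℝ) (hD : 0 < D) (hvar : ∀ x, vr r x ≤ D ^ 2)
    (u v : ℝ) (huv : u ≤ v) (S : Finset (Fin n)) (hS : ∀ x ∈ S, u ≤ ht r x ∧ ht r x ≤ v) :
    (S.card : ℝ) ≤ 4 / 3 * (v - u + 4 * D + 1) := by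
  classical
  have h1 : ∀ x ∈ S, 3 / 4 ≤ Pr r (fun w => ¬ (2 * D ≤ |pos w x - ht r x|)) := by
    intro x _
    rw [Pr_compl hr]
    have := cheb (r := r) (fun w => pos w x - ht r x) (2 * D) (D ^ 2) (by positivity) (hvar x)
    have h2 : D ^ 2 / (2 * D) ^ 2 = 1 / 4 := by field_simp; norm_num
    rw [h2] at this
    linarith
  have h2 : (S.card : ℝ) * (3 / 4) ≤
      ∑ x ∈ S, Pr r (fun w => ¬ (2 * D ≤ |pos w x - ht r x|)) := by
    rw [← nsmul_eq_mul]
    exact Finset.card_nsmul_le_sum _ _ _ h1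
  have h3 : ∑ x ∈ S, Pr r (fun w => ¬ (2 * D ≤ |pos w x - ht r x|)) ≤ v - u + 4 * D + 1 := by
    rw [sum_Pr S _ (fun w x => ¬ (2 * D ≤ |pos w x - ht r x|)) (fun w x => Iff.rfl),
      ← Ex_const hr (v - u + 4 * D + 1)]
    refine Ex_mono fun w => ?_
    have h4 := card_pos_le w (u - 2 * D) (v + 2 * D) (by linarith)
      (S.filter (fun x => ¬ (2 * D ≤ |pos w x - ht r x|))) (by
        intro x hx
        rw [Finset.mem_filter] at hx
        have h5 := abs_lt.1 (not_le.1 hx.2)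
        have h6 := hS x hx.1
        constructor <;> linarith [h5.1, h5.2, h6.1, h6.2])
    linarith
  linarith

/-- (9.2) -/
theorem card_mean_le' (hr : IsPoset r) (D : ℝ) (hD : 1 ≤ D) (hvar : ∀ x, vr r x ≤ D ^ 2)
    (u v : ℝ) (huv : u ≤ v) (huv' : v ≤ u + D) (S : Finset (Fin n))
    (hS : ∀ x ∈ S, u ≤ ht r x ∧ ht r x ≤ v) :
    (S.card : ℝ) ≤ 8 * D := by
  have := card_mean_le hr D (by linarith) hvar u v huv S hS
  linarith

/-- The expected number of elements whose mean rank is far below but whose rank is above `c`. -/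
theorem sum_far_above (hr : IsPoset r) (D : ℝ) (hD : 1 ≤ D) (hvar : ∀ x, vr r x ≤ D ^ 2)
    (c : ℝ) (S : Finset (Fin n)) (hS : ∀ x ∈ S, ht r x ≤ c - 4 * D) :
    ∑ x ∈ S, Pr r (fun w => c ≤ pos w x) ≤ 8 * D * (1 / 3) := by
  have hD0 : 0 < D := by linarith
  refine shell_sum S (fun x => (c - ht r x) / D) 4 ?_ (fun j => 1 / (j : ℝ) ^ 2) ?_ _ ?_ (8 * D)
    (by positivity) ?_ (1 / 3) sum_inv_sq_le
  · intro x hx
    rw [le_div_iff₀ hD0]
    have := hS x hx
    push_cast
    linarith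
  · intro j; positivity
  · intro x hx
    have h1 : 4 ≤ (c - ht r x) / D := by
      rw [le_div_iff₀ hD0]
      have := hS x hx
      linarith
    have h2 : Pr r (fun w => c ≤ pos w x) ≤ D ^ 2 / (c - ht r x) ^ 2 := by
      have h3 : 0 < c - ht r x := by
        have := hS x hx
        linarith
      refine le_trans (Pr_mono ?_)
        (cheb (fun w => pos w x - ht r x) (c - ht r x) (D ^ 2) h3 (hvar x))
      intro w hw
      exact le_trans (by linarith) (le_abs_self _)
    have h4 : D ^ 2 / (c - ht r x) ^ 2 = 1 / ((c - ht r x) / D) ^ 2 := by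
      field_simp
    rw [h4] at h2
    refine le_trans h2 ?_
    have h5 : ((⌊(c - ht r x) / D⌋₊ : ℕ) : ℝ) ≤ (c - ht r x) / D := Nat.floor_le (by linarith)
    have h6 : 4 ≤ ⌊(c - ht r x) / D⌋₊ := Nat.le_floor (by exact_mod_cast h1)
    have h7 : (4 : ℝ) ≤ ((⌊(c - ht r x) / D⌋₊ : ℕ) : ℝ) := by exact_mod_cast h6
    apply one_div_le_one_div_of_le (by positivity)
    gcongr
  · intro j T _ _ hT
    refine card_mean_le' hr D hD hvar (c - (j + 1) * D) (c - j * D) (by nlinarith)
      (by nlinarith) _ ?_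
    intro x hx
    obtain ⟨h1, h2⟩ := hT x hx
    rw [le_div_iff₀ hD0] at h1
    rw [div_lt_iff₀ hD0] at h2
    constructor <;> linarith

/-- The mirror image. -/
theorem sum_far_below (hr : IsPoset r) (D : ℝ) (hD : 1 ≤ D) (hvar : ∀ x, vr r x ≤ D ^ 2)
    (c : ℝ) (S : Finset (Fin n)) (hS : ∀ x ∈ S, c + 4 * D ≤ ht r x) :
    ∑ x ∈ S, Pr r (fun w => pos w x ≤ c) ≤ 8 * D * (1 / 3) := by
  have hD0 : 0 < D := by linarith
  refine shell_sum S (fun x => (ht r x - c) / D) 4 ?_ (fun j => 1 / (j : ℝ) ^ 2) ?_ _ ?_ (8 * D)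
    (by positivity) ?_ (1 / 3) sum_inv_sq_le
  · intro x hx
    rw [le_div_iff₀ hD0]
    have := hS x hx
    push_cast
    linarith
  · intro j; positivity
  · intro x hx
    have h1 : 4 ≤ (ht r x - c) / D := by
      rw [le_div_iff₀ hD0]
      have := hS x hx
      linarith
    have h2 : Pr r (fun w => pos w x ≤ c) ≤ D ^ 2 / (ht r x - c) ^ 2 := by
      have h3 : 0 < ht r x - c := by
        have := hS x hx
        linarith
      refine le_trans (Pr_mono ?_)
        (cheb (fun w => pos w x - ht r x) (ht r x - c) (D ^ 2) h3 (hvar x))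
      intro w hw
      exact le_trans (by linarith) (neg_abs_le_abs_neg (pos w x) (ht r x))
    have h4 : D ^ 2 / (ht r x - c) ^ 2 = 1 / ((ht r x - c) / D) ^ 2 := by
      field_simp
    rw [h4] at h2
    refine le_trans h2 ?_
    have h5 : ((⌊(ht r x - c) / D⌋₊ : ℕ) : ℝ) ≤ (ht r x - c) / D := Nat.floor_le (by linarith)
    have h6 : 4 ≤ ⌊(ht r x - c) / D⌋₊ := Nat.le_floor (by exact_mod_cast h1)
    have h7 : (4 : ℝ) ≤ ((⌊(ht r x - c) / D⌋₊ : ℕ) : ℝ) := by exact_mod_cast h6
    apply one_div_le_one_div_of_le (by positivity)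
    gcongr
  · intro j T _ _ hT
    refine card_mean_le' hr D hD hvar (c + j * D) (c + (j + 1) * D) (by nlinarith)
      (by nlinarith) _ ?_
    intro x hx
    obtain ⟨h1, h2⟩ := hT x hx
    rw [le_div_iff₀ hD0] at h1
    rw [div_lt_iff₀ hD0] at h2
    constructor <;> linarith
where
  neg_abs_le_abs_neg (a b : ℝ) : b - a ≤ |a - b| := by
    rw [abs_sub_comm]
    exact le_abs_self _

/-- (9.3) many elements have their mean rank in a given interval of length `16 D`. -/
theorem le_card_mean (hr : IsPoset r) (D : ℝ) (hD : 1 ≤ D) (hvar : ∀ x, vr r x ≤ D ^ 2)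
    (u v : ℝ) (huv : v = u + 16 * D) (hu : 1 ≤ u) (hv : v ≤ n)
    (S : Finset (Fin n)) (hS : ∀ x, u ≤ ht r x → ht r x ≤ v → x ∈ S) :
    D ≤ (S.card : ℝ) := by
  classical
  have hD0 : 0 < D := by linarith
  -- the middle half
  set a := u + 4 * D with ha
  set b := v - 4 * D with hb
  have hab : b - a = 8 * D := by rw [ha, hb, huv]; ring
  -- lower bound
  have h1 : 8 * D - 1 ≤ ∑ x : Fin n, Pr r (fun w => a ≤ pos w x ∧ pos w x ≤ b) := by
    rw [sum_Pr univ _ (fun w x => a ≤ pos w x ∧ pos w x ≤ b) (fun w x => Iff.rfl),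
      ← Ex_const hr (8 * D - 1)]
    refine Ex_mono fun w => ?_
    have h2 := le_card_pos w a b (by linarith) (by linarith)
      (univ.filter (fun x => a ≤ pos w x ∧ pos w x ≤ b)) (by
        intro x hx1 hx2
        rw [Finset.mem_filter]
        exact ⟨mem_univ x, hx1, hx2⟩)
    linarith
  -- upper bound
  set A := univ.filter (fun x => ht r x < u) with hA
  set B := univ.filter (fun x => v < ht r x) with hB
  have h2 : ∑ x : Fin n, Pr r (fun w => a ≤ pos w x ∧ pos w x ≤ b) ≤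
      (S.card : ℝ) + 8 * D * (1 / 3) + 8 * D * (1 / 3) := by
    have h3 : ∑ x ∈ A, Pr r (fun w => a ≤ pos w x ∧ pos w x ≤ b) ≤ 8 * D * (1 / 3) := by
      refine le_trans (sum_le_sum fun x _ => Pr_mono fun w hw => hw.1) ?_
      refine sum_far_above hr D hD hvar a A ?_
      intro x hx
      rw [hA, Finset.mem_filter] at hx
      rw [ha]
      linarith [hx.2]
    have h4 : ∑ x ∈ B, Pr r (fun w => a ≤ pos w x ∧ pos w x ≤ b) ≤ 8 * D * (1 / 3) := by
      refine le_trans (sum_le_sum fun x _ => Pr_mono fun w hw => hw.2) ?_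
      refine sum_far_below hr D hD hvar b B ?_
      intro x hx
      rw [hB, Finset.mem_filter] at hx
      rw [hb]
      linarith [hx.2]
    have h5 : ∑ x ∈ S, Pr r (fun w => a ≤ pos w x ∧ pos w x ≤ b) ≤ (S.card : ℝ) := by
      have := Finset.sum_le_card_nsmul S
        (fun x => Pr r (fun w => a ≤ pos w x ∧ pos w x ≤ b)) 1 (fun x _ => Pr_le_one hr _)
      simpa using this
    have h7 : (univ : Finset (Fin n)) ⊆ (S ∪ A) ∪ B := by
      intro x _
      rw [Finset.mem_union, Finset.mem_union, hA, hB, Finset.mem_filter, Finset.mem_filter]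
      by_cases h8 : ht r x < u
      · exact Or.inl (Or.inr ⟨mem_univ _, h8⟩)
      · by_cases h9 : v < ht r x
        · exact Or.inr ⟨mem_univ _, h9⟩
        · exact Or.inl (Or.inl (hS x (not_lt.1 h8) (not_lt.1 h9)))
    have h8 := sum_le_sum_of_subset_of_nonneg (f := fun x => Pr r (fun w => a ≤ pos w x ∧ pos w x ≤ b))
      h7 fun x _ _ => Pr_nonneg _
    have h9 := union_le (S ∪ A) B
      (f := fun x => Pr r (fun w => a ≤ pos w x ∧ pos w x ≤ b)) (fun x => Pr_nonneg _)
    have h10 := union_le S A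
      (f := fun x => Pr r (fun w => a ≤ pos w x ∧ pos w x ≤ b)) (fun x => Pr_nonneg _)
    linarith
  linarith
where
  union_le (S T : Finset (Fin n)) {f : Fin n → ℝ} (hf : ∀ x, 0 ≤ f x) :
      ∑ x ∈ S ∪ T, f x ≤ ∑ x ∈ S, f x + ∑ x ∈ T, f x := by
    rw [← sum_union_inter]
    have : 0 ≤ ∑ x ∈ S ∩ T, f x := sum_nonneg fun x _ => hf x
    linarith

/-- the height of `x` is a mean of positions -/
theorem Ex_pos_sub (hr : IsPoset r) (x : Fin n) : Ex r (fun w => pos w x - ht r x) = 0 := by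
  rw [Ex_sub, Ex_const hr]
  exact sub_self _

theorem Ex_abs_le_sqrt (hr : IsPoset r) (f : Equiv.Perm (Fin n) → ℝ) (v : ℝ) (hv : 0 ≤ v)
    (h : Ex r (fun w => f w ^ 2) ≤ v ^ 2) : Ex r (fun w => |f w|) ≤ v := by
  rcases hv.eq_or_lt with rfl | hv0
  · -- zero
    have hcard : 0 < ((LEs r).card : ℝ) := by exact_mod_cast LEs_pos hr
    have h1 : ∑ w ∈ LEs r, f w ^ 2 ≤ 0 := by
      unfold Ex at h
      rw [div_le_iff₀ hcard] at h
      simpa using h
    have h2 : ∀ w ∈ LEs r, f w ^ 2 = 0 :=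
      (Finset.sum_eq_zero_iff_of_nonneg fun w _ => sq_nonneg _).1
        (le_antisymm h1 (Finset.sum_nonneg fun w _ => sq_nonneg _))
    unfold Ex
    rw [Finset.sum_eq_zero, zero_div]
    intro w hw
    rw [abs_eq_zero]
    exact pow_eq_zero_iff (two_ne_zero) |>.1 (h2 w hw)
  · have h1 : Ex r (fun w => |f w|) ≤ Ex r (fun w => (1 / (2 * v)) * f w ^ 2 + v / 2) := by
      refine Ex_mono fun w => ?_
      have h2 : 0 ≤ (|f w| - v) ^ 2 := sq_nonneg _
      have h3 : |f w| ^ 2 = f w ^ 2 := sq_abs _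
      have h4 : |f w| = (1 / (2 * v)) * (2 * v * |f w|) := by field_simp
      rw [h4]
      have h5 : (1 / (2 * v)) * f w ^ 2 + v / 2 = (1 / (2 * v)) * (f w ^ 2 + v ^ 2) := by
        field_simp
      rw [h5]
      apply mul_le_mul_of_nonneg_left _ (by positivity)
      nlinarith
    rw [Ex_add, Ex_mul_left, Ex_const hr] at h1
    have h2 : (1 / (2 * v)) * Ex r (fun w => f w ^ 2) ≤ (1 / (2 * v)) * v ^ 2 :=
      mul_le_mul_of_nonneg_left h (by positivity)
    have h3 : (1 / (2 * v)) * v ^ 2 = v / 2 := by field_simp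
    linarith

/-- the variance of a difference -/
theorem Ex_diff_sq_le (D : ℝ) (hvar : ∀ x, vr r x ≤ D ^ 2) (x y : Fin n) :
    Ex r (fun w => ((pos w x - pos w y) - (ht r x - ht r y)) ^ 2) ≤ (2 * D) ^ 2 := by
  have h1 : Ex r (fun w => ((pos w x - pos w y) - (ht r x - ht r y)) ^ 2) ≤
      Ex r (fun w => 2 * (pos w x - ht r x) ^ 2 + 2 * (pos w y - ht r y) ^ 2) := by
    refine Ex_mono fun w => ?_
    nlinarith [sq_nonneg ((pos w x - ht r x) + (pos w y - ht r y))]
  rw [Ex_add, Ex_mul_left, Ex_mul_left] at h1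
  have h2 := hvar x
  have h3 := hvar y
  unfold vr at h2 h3
  nlinarith

/-- (9.1) `s ^ 2 ≤ 6 D ^ 2 + |h x - h y|` -/
theorem s_sq_le {top : Fin n} (M : Model r top) (D : ℝ) (hD : 1 ≤ D)
    (hvar : ∀ x, vr r x ≤ D ^ 2) (x y : Fin n) :
    ∫ t, (M.cd x y t) ^ 2 ∂M.μ ≤ 6 * D ^ 2 + |ht r x - ht r y| := by
  have hr := M.poset
  have hint : MeasureTheory.Integrable (fun t : Fin n → ℝ => t x - t y) M.μ := by
    obtain ⟨R, hR⟩ := M.bdd
    refine MeasureTheory.Integrable.of_bound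
      ((measurable_pi_apply x).sub (measurable_pi_apply y)).aestronglyMeasurable (2 * R) ?_
    filter_upwards [hR] with t ht
    rw [Real.norm_eq_abs]
    have h1 := abs_le.1 (ht x)
    have h2 := abs_le.1 (ht y)
    rw [abs_le]
    constructor <;> linarith [h1.1, h1.2, h2.1, h2.2]
  have hint2 : MeasureTheory.Integrable (fun t : Fin n → ℝ => (t x - t y) ^ 2) M.μ := by
    obtain ⟨R, hR⟩ := M.bdd
    refine MeasureTheory.Integrable.of_bound
      (((measurable_pi_apply x).sub (measurable_pi_apply y)).pow_const 2).aestronglyMeasurable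
      ((2 * R) ^ 2) ?_
    filter_upwards [hR] with t ht
    rw [Real.norm_eq_abs, abs_pow]
    have h1 := abs_le.1 (ht x)
    have h2 := abs_le.1 (ht y)
    have h3 : |t x - t y| ≤ 2 * R := by
      rw [abs_le]
      constructor <;> linarith [h1.1, h1.2, h2.1, h2.2]
    gcongr
  set m := ht r x - ht r y with hm
  have h1 : ∫ t, (M.cd x y t) ^ 2 ∂M.μ = ∫ t, (t x - t y) ^ 2 ∂M.μ - m ^ 2 := by
    have h2 : ∀ t : Fin n → ℝ, (M.cd x y t) ^ 2 = (t x - t y) ^ 2 - 2 * m * (t x - t y) + m ^ 2 := by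
      intro t
      unfold Model.cd
      ring
    have hi1 : MeasureTheory.Integrable (fun t : Fin n → ℝ => 2 * m * (t x - t y)) M.μ :=
      hint.const_mul _
    have hi2 : MeasureTheory.Integrable
        (fun t : Fin n → ℝ => (t x - t y) ^ 2 - 2 * m * (t x - t y)) M.μ := hint2.sub hi1
    have hi3 : MeasureTheory.Integrable (fun _ : Fin n → ℝ => m ^ 2) M.μ :=
      MeasureTheory.integrable_const _
    calc ∫ t, (M.cd x y t) ^ 2 ∂M.μ
        = ∫ t, (((t x - t y) ^ 2 - 2 * m * (t x - t y)) + m ^ 2) ∂M.μ := by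
          simp_rw [h2]
      _ = ∫ t, ((t x - t y) ^ 2 - 2 * m * (t x - t y)) ∂M.μ + ∫ _t, m ^ 2 ∂M.μ :=
          MeasureTheory.integral_add hi2 hi3
      _ = (∫ t, (t x - t y) ^ 2 ∂M.μ - ∫ t, 2 * m * (t x - t y) ∂M.μ) + ∫ _t, m ^ 2 ∂M.μ := by
          rw [MeasureTheory.integral_sub hint2 hi1]
      _ = _ := by
          rw [MeasureTheory.integral_const_mul, M.mean, MeasureTheory.integral_const]
          simp only [MeasureTheory.probReal_univ, one_smul]
          rw [← hm]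
          ring
  have h3 := M.sqm x y
  have h4 : Ex r (fun σ => (pos σ x - pos σ y) ^ 2) =
      Ex r (fun w => ((pos w x - pos w y) - m) ^ 2) + m ^ 2 := by
    have h5 : Ex r (fun w => pos w x - pos w y) = m := by
      rw [Ex_sub]
      rfl
    have h6 : Ex r (fun w => ((pos w x - pos w y) - m) ^ 2) =
        Ex r (fun σ => (pos σ x - pos σ y) ^ 2) - m ^ 2 := by
      have h7 : (fun w : Equiv.Perm (Fin n) => ((pos w x - pos w y) - m) ^ 2) =
          fun w => ((pos w x - pos w y) ^ 2 + m ^ 2) - (2 * m) * (pos w x - pos w y) := by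
        funext w
        ring
      rw [h7, Ex_sub, Ex_add, Ex_mul_left, Ex_const hr, h5]
      ring
    rw [h6]
    ring
  have h5 := Ex_diff_sq_le D hvar x y
  rw [← hm] at h5
  have h6 : Ex r (fun σ => |pos σ x - pos σ y|) ≤ |m| + 2 * D := by
    have h7 : Ex r (fun σ => |pos σ x - pos σ y|) ≤
        Ex r (fun σ => |(pos σ x - pos σ y) - m| + |m|) := by
      refine Ex_mono fun w => ?_
      have := abs_add_le ((pos w x - pos w y) - m) m
      rwa [sub_add_cancel] at this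
    rw [Ex_add, Ex_const hr] at h7
    have h8 := Ex_abs_le_sqrt hr (fun w => (pos w x - pos w y) - m) (2 * D) (by linarith) h5
    linarith
  nlinarith

end Pool.Agent.Helper18.KSC
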